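import Pool.Agent.H323.Rays.Defs
import Pool.Agent.Helper569.FaultyBasic

open MeasureTheory
open scoped ENNReal

namespace Pool.Agent.H323.Rays

lemma coin_eq (p : ℝ) : coin p = Pool.Agent.Helper569.Faulty.coin p := rfl

lemma startTime_succ (T : Path) (n : ℕ) :
    startTime T (n + 1) = startTime T n + |T.dist (n + 1) - T.dist n| := by
  unfold startTime
  rw [Finset.sum_range_succ]

lemma startTime_zero (T : Path) : startTime T 0 = 0 := by simp [startTime]

variable {T : Path} {j : ℕ} {d : ℝ}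

lemma passTime_le_of_finset {k : ℕ} {u : ℝ} (F : Finset ℝ) (hF : k ≤ F.card)
    (hT : ∀ s ∈ F, s ≤ u ∧ IsAt T s j d) : passTime T j d k ≤ ENNReal.ofReal u := by
  unfold passTime
  refine iInf₂_le u ?_
  calc (k : ℕ∞) ≤ (F.card : ℕ∞) := by exact_mod_cast hF
    _ = (F : Set ℝ).encard := (Set.encard_coe_eq_coe_finsetCard F).symm
    _ ≤ _ := Set.encard_le_encard (fun s hs => hT s hs)

lemma passTime_le {τ : ℕ → ℝ} (hτ : StrictMono τ)
    (hp : ∀ k, IsAt T (τ k) j d) (k : ℕ) : passTime T j d (k + 1) ≤ ENNReal.ofReal (τ k) := by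
  apply passTime_le_of_finset ((Finset.range (k + 1)).image τ)
  · rw [Finset.card_image_of_injective _ hτ.injective, Finset.card_range]
  · intro s hs
    rw [Finset.mem_image] at hs
    obtain ⟨i, hi, rfl⟩ := hs
    exact ⟨hτ.monotone (Nat.lt_succ_iff.1 (Finset.mem_range.1 hi)), hp i⟩

lemma le_passTime {τ : ℕ → ℝ} (hτ : StrictMono τ)
    (hp : ∀ s, IsAt T s j d → ∃ k, s = τ k) (k : ℕ) :
    ENNReal.ofReal (τ k) ≤ passTime T j d (k + 1) := by
  unfold passTime
  refine le_iInf₂ fun u hT => ?_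
  apply ENNReal.ofReal_le_ofReal
  by_contra hlt
  rw [not_le] at hlt
  have h1 : {s : ℝ | s ≤ u ∧ IsAt T s j d} ⊆ (((Finset.range k).image τ : Finset ℝ) : Set ℝ) := by
    rintro s ⟨hs1, hs2⟩
    obtain ⟨i, rfl⟩ := hp s hs2
    rw [Finset.mem_coe, Finset.mem_image]
    refine ⟨i, ?_, rfl⟩
    rw [Finset.mem_range]
    exact hτ.lt_iff_lt.1 (hs1.trans_lt hlt)
  have h2 := hT.trans (Set.encard_le_encard h1)
  rw [Set.encard_coe_eq_coe_finsetCard, Finset.card_image_of_injective _ hτ.injective,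
    Finset.card_range] at h2
  have h3 : k + 1 ≤ k := by exact_mod_cast h2
  omega

lemma passTime_mono (T : Path) (j : ℕ) (d : ℝ) {k l : ℕ} (hkl : k ≤ l) :
    passTime T j d k ≤ passTime T j d l := by
  unfold passTime
  refine le_iInf₂ fun t ht => ?_
  have h1 : (k : ℕ∞) ≤ (l : ℕ∞) := by exact_mod_cast hkl
  exact iInf₂_le t (h1.trans ht)

/-- the expected detection time without the convention on reversals -/
noncomputable def plainTime (p : ℝ) (T : Path) (j : ℕ) (d : ℝ) : ℝ≥0∞ :=
  ∫⁻ ω : ℕ → Bool, (⨅ (k : ℕ) (_ : ω k = true), passTime T j d (k + 1))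
    ∂(Measure.infinitePi fun _ : ℕ => coin p)

lemma expectedTime_le_plain (p : ℝ) (T : Path) (j : ℕ) (d : ℝ) :
    expectedTime p T j d ≤ plainTime p T j d := by
  unfold expectedTime plainTime detectionTime
  exact lintegral_mono fun ω => inf_le_left

lemma expectedTime_eq_plain (p : ℝ) (h : ∀ t, ¬ ReversesAt T t j d) :
    expectedTime p T j d = plainTime p T j d := by
  unfold expectedTime plainTime detectionTime
  congr 1
  funext ω
  have : (⨅ (t : ℝ) (_ : ReversesAt T t j d), ENNReal.ofReal t) = ⊤ := by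
    simp [h]
  rw [this, inf_top_eq]

open Pool.Agent.Helper569.Faulty (firstAt mem_firstAt measurableSet_firstAt measure_firstAt
  measure_never)

variable {p : ℝ}

/-- the expected detection time is the sum over the passes -/
lemma plainTime_eq (hp0 : 0 < p) (hp1 : p ≤ 1) (T : Path) (j : ℕ) (d : ℝ) :
    plainTime p T j d = ∑' k : ℕ, ENNReal.ofReal (p * (1 - p) ^ k) * passTime T j d (k + 1) := by
  unfold plainTime
  have hc : (Measure.infinitePi fun _ : ℕ => coin p) =
      Measure.infinitePi fun _ : ℕ => Pool.Agent.Helper569.Faulty.coin p := rfl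
  rw [hc]
  have h1 : (Measure.infinitePi fun _ : ℕ => Pool.Agent.Helper569.Faulty.coin p).restrict
      (⋃ k, firstAt k) = Measure.infinitePi fun _ : ℕ => Pool.Agent.Helper569.Faulty.coin p := by
    apply Measure.restrict_eq_self_of_ae_mem
    rw [ae_iff]
    exact measure_never hp0 hp1
  rw [← h1, lintegral_iUnion measurableSet_firstAt]
  · congr 1
    funext k
    have h2 : ∫⁻ ω in firstAt k, (⨅ (k : ℕ) (_ : ω k = true), passTime T j d (k + 1))
          ∂(Measure.infinitePi fun _ : ℕ => Pool.Agent.Helper569.Faulty.coin p) =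
        ∫⁻ _ω in firstAt k, passTime T j d (k + 1)
          ∂(Measure.infinitePi fun _ : ℕ => Pool.Agent.Helper569.Faulty.coin p) := by
      apply setLIntegral_congr_fun (measurableSet_firstAt k)
      intro ω hω
      obtain ⟨ha, hb⟩ := mem_firstAt.1 hω
      change (⨅ (k : ℕ) (_ : ω k = true), passTime T j d (k + 1)) = passTime T j d (k + 1)
      apply le_antisymm
      · exact iInf₂_le k hb
      · refine le_iInf₂ fun l hl => ?_
        apply passTime_mono
        by_contra hlt
        have := ha l (by omega)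
        rw [this] at hl
        exact absurd hl (by simp)
    rw [h2, setLIntegral_const, measure_firstAt hp0.le hp1, mul_comm]
  · intro i l hil
    rw [Function.onFun, Set.disjoint_left]
    intro ω hi hj
    obtain ⟨a1, a2⟩ := mem_firstAt.1 hi
    obtain ⟨b1, b2⟩ := mem_firstAt.1 hj
    rcases Nat.lt_or_gt_of_ne hil with h | h
    · rw [b1 i h] at a2; exact absurd a2 (by simp)
    · rw [a1 l h] at b2; exact absurd b2 (by simp)

lemma expectedTime_le (hp0 : 0 < p) (hp1 : p ≤ 1) {τ : ℕ → ℝ}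
    (hτ : StrictMono τ) (hp : ∀ k, IsAt T (τ k) j d) :
    expectedTime p T j d ≤ ∑' k : ℕ, ENNReal.ofReal (p * (1 - p) ^ k * τ k) := by
  refine (expectedTime_le_plain p T j d).trans ?_
  rw [plainTime_eq hp0 hp1]
  apply ENNReal.tsum_le_tsum
  intro k
  have h1 : 0 ≤ 1 - p := by linarith
  have h0 : 0 ≤ p * (1 - p) ^ k := by positivity
  rw [ENNReal.ofReal_mul h0]
  exact mul_le_mul_right (passTime_le hτ hp k) _

lemma le_expectedTime (hp0 : 0 < p) (hp1 : p ≤ 1) {τ : ℕ → ℝ}
    (hτ : StrictMono τ) (hp : ∀ s, IsAt T s j d → ∃ k, s = τ k)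
    (hrev : ∀ t, ¬ ReversesAt T t j d) :
    ∑' k : ℕ, ENNReal.ofReal (p * (1 - p) ^ k * τ k) ≤ expectedTime p T j d := by
  rw [expectedTime_eq_plain p hrev, plainTime_eq hp0 hp1]
  apply ENNReal.tsum_le_tsum
  intro k
  have h1 : 0 ≤ 1 - p := by linarith
  have h0 : 0 ≤ p * (1 - p) ^ k := by positivity
  rw [ENNReal.ofReal_mul h0]
  exact mul_le_mul_right (le_passTime hτ hp k) _

/-- positions on an outward leg -/
lemma isAt_out (T : Path) (n : ℕ) {x : ℝ} (h1 : T.dist n ≤ x) (h2 : x ≤ T.dist (n + 1)) :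
    IsAt T (startTime T n + (x - T.dist n)) (T.ray n) x := by
  rcases eq_or_lt_of_le (h1.trans h2) with h | h
  · have hx : x = T.dist n := le_antisymm (h ▸ h2) h1
    exact ⟨n, rfl, 0, by simp, by rw [hx]; simp, by rw [hx]; simp⟩
  · have hpos : 0 < T.dist (n + 1) - T.dist n := by linarith
    refine ⟨n, rfl, (x - T.dist n) / (T.dist (n + 1) - T.dist n),
      ⟨div_nonneg (by linarith) hpos.le, by rw [div_le_one hpos]; linarith⟩, ?_, ?_⟩
    · rw [abs_of_pos hpos, div_mul_cancel₀ _ hpos.ne']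
    · rw [div_mul_cancel₀ _ hpos.ne']; ring

/-- positions on an inward leg -/
lemma isAt_in (T : Path) (n : ℕ) {x : ℝ} (h1 : T.dist (n + 1) ≤ x) (h2 : x ≤ T.dist n) :
    IsAt T (startTime T n + (T.dist n - x)) (T.ray n) x := by
  rcases eq_or_lt_of_le (h1.trans h2) with h | h
  · have hx : x = T.dist n := le_antisymm h2 (h ▸ h1)
    exact ⟨n, rfl, 0, by simp, by rw [hx]; simp, by rw [hx]; simp⟩
  · have hneg : T.dist (n + 1) - T.dist n < 0 := by linarith
    refine ⟨n, rfl, (x - T.dist n) / (T.dist (n + 1) - T.dist n),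
      ⟨div_nonneg_of_nonpos (by linarith) hneg.le, by rw [div_le_one_of_neg hneg]; linarith⟩,
      ?_, ?_⟩
    · rw [abs_of_neg hneg, mul_neg, div_mul_cancel₀ _ hneg.ne]; ring
    · rw [div_mul_cancel₀ _ hneg.ne]; ring

end Pool.Agent.H323.Rays
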