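import Pool.Agent.H323.Rays.Basic
import Pool.Agent.Helper569.FaultyMain

open MeasureTheory
open scoped ENNReal

namespace Pool.Agent.H323.Rays

open Pool.Agent.Helper569.Faulty (S S_zero S_succ S_nonneg S_mono hasSum_pq hasSum_alt
  summable_of_tsum_ofReal_le)

/-- index offset of the `k`-th pass -/
def e (m k : ℕ) : ℕ := m * (k / 2) + k % 2

lemma e_even (m l : ℕ) : e m (2 * l) = m * l := by
  unfold e
  have h1 : (2 * l) / 2 = l := by omega
  have h2 : (2 * l) % 2 = 0 := by omega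
  rw [h1, h2, add_zero]

lemma e_odd (m l : ℕ) : e m (2 * l + 1) = m * l + 1 := by
  unfold e
  have h1 : (2 * l + 1) / 2 = l := by omega
  have h2 : (2 * l + 1) % 2 = 1 := by omega
  rw [h1, h2]

lemma e_strictMono {m : ℕ} (hm : 2 ≤ m) : StrictMono (e m) := by
  apply strictMono_nat_of_lt_succ
  intro k
  obtain ⟨l, rfl | rfl⟩ : ∃ l, k = 2 * l ∨ k = 2 * l + 1 := ⟨k / 2, by omega⟩
  · rw [e_even, e_odd]; omega
  · rw [show 2 * l + 1 + 1 = 2 * (l + 1) by ring, e_even, e_odd, mul_add, mul_one]; omega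

lemma e_zero (m : ℕ) : e m 0 = 0 := by simp [e]

lemma e_one (m : ℕ) : e m 1 = 1 := by simp [e]

lemma e_pos {m : ℕ} (hm : 2 ≤ m) {k : ℕ} (hk : 1 ≤ k) : 1 ≤ e m k := by
  have := (e_strictMono hm).monotone hk
  rwa [e_one] at this

lemma x_mono {x : ℕ → ℝ} {m : ℕ} (hx : ∀ n, x n < x (n + m)) (i l : ℕ) :
    x i ≤ x (i + m * l) := by
  induction l with
  | zero => simp
  | succ n ih =>
    have := hx (i + m * n)
    rw [show i + m * (n + 1) = i + m * n + m by ring]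
    linarith

lemma exists_mul {m i n : ℕ} (hin : i ≤ n) (h : n % m = i % m) : ∃ l, n = i + m * l := by
  obtain ⟨l, hl⟩ := (Nat.modEq_iff_dvd' hin).1 (show i ≡ n [MOD m] from h.symm)
  exact ⟨l, by omega⟩

lemma x_mono_mod {x : ℕ → ℝ} {m : ℕ} (hx : ∀ n, x n < x (n + m)) {i n : ℕ} (hin : i ≤ n)
    (h : n % m = i % m) : x i ≤ x n := by
  obtain ⟨l, rfl⟩ := exists_mul hin h
  exact x_mono hx i l

lemma add_le_of_mod {m i n : ℕ} (hin : i < n) (h : n % m = i % m) : i + m ≤ n := by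
  have h1 := (Nat.modEq_iff_dvd' hin.le).1 (show i ≡ n [MOD m] from h.symm)
  have h2 := Nat.le_of_dvd (by omega) h1
  omega

section cyc

variable {T : Path} {x : ℕ → ℝ} {m : ℕ}

/-- `T` consists of the excursions to distance `x k` on ray `k % m` -/
def IsCyc (m : ℕ) (x : ℕ → ℝ) (T : Path) : Prop :=
  ∀ k, T.ray (2 * k) = k % m ∧ T.ray (2 * k + 1) = k % m ∧ T.dist (2 * k) = 0 ∧
    T.dist (2 * k + 1) = x k

lemma start_even (hx0 : ∀ n, 0 < x n) (hT : IsCyc m x T) (k : ℕ) :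
    startTime T (2 * k) = S x k := by
  induction k with
  | zero => rw [mul_zero, startTime_zero, S_zero]
  | succ n ih =>
    obtain ⟨_, _, h3, h4⟩ := hT n
    obtain ⟨_, _, h5, _⟩ := hT (n + 1)
    have h6 := hx0 n
    rw [show 2 * (n + 1) = 2 * n + 1 + 1 by ring] at h5 ⊢
    rw [startTime_succ, startTime_succ, ih, h5, h3, h4, S_succ, sub_zero, zero_sub, abs_neg,
      abs_of_pos h6]
    ring

lemma start_odd (hx0 : ∀ n, 0 < x n) (hT : IsCyc m x T) (k : ℕ) :
    startTime T (2 * k + 1) = S x k + x k := by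
  obtain ⟨_, _, h3, h4⟩ := hT k
  rw [startTime_succ, start_even hx0 hT, h3, h4, sub_zero, abs_of_pos (hx0 k)]

lemma isAt_cyc (hx0 : ∀ n, 0 < x n) (hT : IsCyc m x T) {j : ℕ} {g t : ℝ} (_hg : 0 < g)
    (h : IsAt T t j g) :
    ∃ n, n % m = j ∧ g ≤ x n ∧ (t = S x n + g ∨ t = S x (n + 1) - g) := by
  obtain ⟨l, hl, s, ⟨hs0, hs1⟩, ht, hg2⟩ := h
  obtain ⟨n, rfl | rfl⟩ : ∃ n, l = 2 * n ∨ l = 2 * n + 1 := ⟨l / 2, by omega⟩
  · obtain ⟨h1, _, h3, h4⟩ := hT n
    rw [start_even hx0 hT, h3, h4, sub_zero, abs_of_pos (hx0 n)] at ht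
    rw [h3, h4, sub_zero, zero_add] at hg2
    refine ⟨n, h1 ▸ hl, ?_, Or.inl ?_⟩
    · rw [hg2]; nlinarith [hx0 n]
    · rw [ht, hg2]
  · obtain ⟨_, h2, h3, h4⟩ := hT n
    obtain ⟨_, _, h5, _⟩ := hT (n + 1)
    rw [show 2 * (n + 1) = 2 * n + 1 + 1 by ring] at h5
    rw [start_odd hx0 hT, h5, h4, zero_sub, abs_neg, abs_of_pos (hx0 n)] at ht
    rw [h5, h4, zero_sub] at hg2
    refine ⟨n, h2 ▸ hl, ?_, Or.inr ?_⟩
    · rw [hg2]; nlinarith [hx0 n]
    · rw [ht, S_succ]; linarith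

lemma isAt_cyc_out (hx0 : ∀ n, 0 < x n) (hT : IsCyc m x T) {n : ℕ} {g : ℝ} (hg : 0 ≤ g)
    (hgn : g ≤ x n) : IsAt T (S x n + g) (n % m) g := by
  obtain ⟨h1, _, h3, h4⟩ := hT n
  have h := isAt_out T (2 * n) (x := g) (by rw [h3]; exact hg) (by rw [h4]; exact hgn)
  rwa [start_even hx0 hT, h3, sub_zero, h1] at h

lemma isAt_cyc_in (hx0 : ∀ n, 0 < x n) (hT : IsCyc m x T) {n : ℕ} {g : ℝ} (hg : 0 ≤ g)
    (hgn : g ≤ x n) : IsAt T (S x (n + 1) - g) (n % m) g := by
  obtain ⟨_, h2, h3, h4⟩ := hT n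
  obtain ⟨_, _, h5, _⟩ := hT (n + 1)
  rw [show 2 * (n + 1) = 2 * n + 1 + 1 by ring] at h5
  have h := isAt_in T (2 * n + 1) (x := g) (by rw [h5]; exact hg) (by rw [h4]; exact hgn)
  rw [start_odd hx0 hT, h4, h2] at h
  convert h using 1
  rw [S_succ]
  ring

lemma no_reversal (hx : ∀ n, x n < x (n + m)) (hT : IsCyc m x T) {i : ℕ} {g t : ℝ}
    (hg : 0 < g) (h1 : x i < g) (h2 : g < x (i + m)) : ¬ ReversesAt T t (i % m) g := by
  rintro ⟨n, hr1, _, hd, _, _⟩
  obtain ⟨k, rfl | rfl⟩ : ∃ k, n = 2 * k ∨ n = 2 * k + 1 := ⟨n / 2, by omega⟩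
  · rw [(hT k).2.2.2] at hd
    rw [(hT k).1] at hr1
    rcases le_or_gt k i with hk | hk
    · have := x_mono_mod hx hk hr1.symm
      linarith
    · have h3 := add_le_of_mod hk hr1
      have := x_mono_mod hx h3 (by rw [hr1, Nat.add_mod_right])
      linarith
  · have h5 := (hT (k + 1)).2.2.1
    rw [show 2 * (k + 1) = 2 * k + 1 + 1 by ring] at h5
    rw [h5] at hd
    linarith

/-- the pass times of a point between two consecutive turning points of one ray -/
noncomputable def tau (x : ℕ → ℝ) (m i : ℕ) (g : ℝ) (k : ℕ) : ℝ :=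
  S x (i + m + e m k) + (-1) ^ k * g

lemma tau_even (i : ℕ) (g : ℝ) (l : ℕ) : tau x m i g (2 * l) = S x (i + m + m * l) + g := by
  unfold tau
  rw [e_even, pow_mul]
  simp

lemma tau_odd (i : ℕ) (g : ℝ) (l : ℕ) :
    tau x m i g (2 * l + 1) = S x (i + m + m * l + 1) - g := by
  unfold tau
  rw [e_odd, pow_succ, pow_mul, ← add_assoc]
  simp
  ring

lemma tau_strictMono (hm : 2 ≤ m) (hx0 : ∀ n, 0 < x n) (hx : ∀ n, x n < x (n + m)) {i : ℕ}
    {g : ℝ} (hg : 0 < g) (hgi : g < x (i + m)) : StrictMono (tau x m i g) := by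
  apply strictMono_nat_of_lt_succ
  intro k
  obtain ⟨l, rfl | rfl⟩ : ∃ l, k = 2 * l ∨ k = 2 * l + 1 := ⟨k / 2, by omega⟩
  · rw [tau_even, tau_odd, S_succ]
    have : x (i + m) ≤ x (i + m + m * l) := x_mono hx _ _
    linarith
  · rw [show 2 * l + 1 + 1 = 2 * (l + 1) by ring, tau_even, tau_odd, mul_add, mul_one]
    have := S_mono hx0 (show i + m + m * l + 1 ≤ i + m + (m * l + m) by omega)
    linarith

lemma isAt_tau (hx0 : ∀ n, 0 < x n) (hx : ∀ n, x n < x (n + m)) (hT : IsCyc m x T)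
    {i : ℕ} {g t : ℝ} (hgi : x i < g) (h : IsAt T t (i % m) g) : ∃ k, t = tau x m i g k := by
  have hg : 0 < g := (hx0 i).trans hgi
  obtain ⟨n, hpar, hgn, ht⟩ := isAt_cyc hx0 hT hg h
  have hn : i + m ≤ n := by
    rcases le_or_gt n i with hni | hni
    · have := x_mono_mod hx hni hpar.symm
      linarith
    · exact add_le_of_mod hni hpar
  obtain ⟨l, rfl⟩ := exists_mul hn (by rw [hpar, Nat.add_mod_right])
  rcases ht with ht | ht
  · exact ⟨2 * l, by rw [tau_even, ht]⟩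
  · exact ⟨2 * l + 1, by rw [tau_odd, ht]⟩

lemma mod_shift (i l : ℕ) : (i + m + m * l) % m = i % m := by
  rw [Nat.add_mul_mod_self_left, Nat.add_mod_right]

lemma isAt_passes (hx0 : ∀ n, 0 < x n) (hx : ∀ n, x n < x (n + m)) (hT : IsCyc m x T)
    {i : ℕ} {g : ℝ} (hg : 0 < g) (hgi : g < x (i + m)) (k : ℕ) :
    IsAt T (tau x m i g k) (i % m) g := by
  obtain ⟨l, rfl | rfl⟩ : ∃ l, k = 2 * l ∨ k = 2 * l + 1 := ⟨k / 2, by omega⟩
  · rw [tau_even, ← mod_shift (m := m) i l]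
    exact isAt_cyc_out hx0 hT hg.le (hgi.le.trans (x_mono hx _ _))
  · rw [tau_odd, ← mod_shift (m := m) i l]
    exact isAt_cyc_in hx0 hT hg.le (hgi.le.trans (x_mono hx _ _))

variable {p c : ℝ}

lemma ratio_le_iff (hp0 : 0 < p) (hc : 0 ≤ c) (m : ℕ) (T : Path) :
    competitiveRatio m p T ≤ ENNReal.ofReal (p * c) ↔
      ∀ j, j < m → ∀ d : ℝ, 1 ≤ d → expectedTime p T j d ≤ ENNReal.ofReal (c * d) := by
  unfold competitiveRatio
  simp only [iSup_le_iff]
  apply forall_congr'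
  intro j
  apply forall_congr'
  intro _
  apply forall_congr'
  intro d
  apply forall_congr'
  intro hd
  have hpos : 0 < d := by linarith
  have h1 : ENNReal.ofReal d ≠ 0 := by simpa using hpos
  have h3 : ENNReal.ofReal p ≠ 0 := by simpa using hp0
  rw [ENNReal.div_le_iff h1 ENNReal.ofReal_ne_top, ENNReal.ofReal_mul hp0.le,
    ENNReal.ofReal_mul hc, mul_assoc]
  exact ENNReal.mul_le_mul_iff_right h3 ENNReal.ofReal_ne_top

/-- the key consequence of a small competitive ratio -/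
lemma key_bound (hm : 2 ≤ m) (hp0 : 0 < p) (hp1 : p < 1) (hc : 0 ≤ c) (hx0 : ∀ n, 0 < x n)
    (hx : ∀ n, x n < x (n + m)) (hT : IsCyc m x T)
    (hr : competitiveRatio m p T ≤ ENNReal.ofReal (p * c)) {i : ℕ} (hi : 1 ≤ x i) :
    Summable (fun k : ℕ => p * (1 - p) ^ k * S x (i + m + e m k)) ∧
      ∑' k : ℕ, p * (1 - p) ^ k * S x (i + m + e m k) ≤ (c - p / (2 - p)) * x i := by
  have hq0 : 0 < 1 - p := by linarith
  have main : ∀ g, x i < g → g < x (i + m) →
      Summable (fun k : ℕ => p * (1 - p) ^ k * S x (i + m + e m k)) ∧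
      ∑' k : ℕ, p * (1 - p) ^ k * S x (i + m + e m k) ≤ (c - p / (2 - p)) * g := by
    intro g h1 h2
    have hg : 0 < g := (hx0 i).trans h1
    have h4 := (ratio_le_iff hp0 hc m T).1 hr (i % m) (Nat.mod_lt _ (by omega)) g (by linarith)
    have hmono := tau_strictMono hm hx0 hx hg h2
    have h5 := (le_expectedTime hp0 hp1.le hmono
      (fun s hs => isAt_tau hx0 hx hT h1 hs)
      (fun t => no_reversal hx hT hg h1 h2)).trans h4
    have htau0 : ∀ k, 0 ≤ tau x m i g k := by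
      intro k
      refine le_trans ?_ (hmono.monotone (Nat.zero_le k))
      have h6 := tau_even (x := x) (m := m) i g 0
      rw [mul_zero] at h6
      rw [h6]
      have := S_nonneg hx0 (i + m + m * 0)
      linarith
    obtain ⟨h6, h7⟩ := summable_of_tsum_ofReal_le (fun k => mul_nonneg (by positivity) (htau0 k))
      (by positivity) h5
    have h8 := (h6.hasSum).sub ((hasSum_alt hp0 hp1).mul_right g)
    have h9 : (fun k : ℕ => p * (1 - p) ^ k * tau x m i g k - p * (1 - p) ^ k * (-1) ^ k * g) =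
        fun k : ℕ => p * (1 - p) ^ k * S x (i + m + e m k) := by
      funext k
      unfold tau
      ring
    rw [h9] at h8
    refine ⟨h8.summable, ?_⟩
    rw [h8.tsum_eq]
    linarith
  have hlt := hx i
  obtain ⟨g0, hg1, hg2⟩ := exists_between hlt
  refine ⟨(main g0 hg1 hg2).1, ?_⟩
  apply le_of_forall_pos_le_add
  intro η hη
  set a := ∑' k : ℕ, p * (1 - p) ^ k * S x (i + m + e m k) with ha
  by_cases hcb : c - p / (2 - p) ≤ 0
  · have h1 := (main g0 hg1 hg2).2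
    nlinarith
  · push Not at hcb
    obtain ⟨g, h1, h2⟩ := exists_between (lt_min hlt
      (by have : 0 < η / (c - p / (2 - p)) := by positivity
          linarith : x i < x i + η / (c - p / (2 - p))))
    have h3 := (main g h1 (h2.trans_le (min_le_left _ _))).2
    have h4 : g ≤ x i + η / (c - p / (2 - p)) := (h2.trans_le (min_le_right _ _)).le
    calc a ≤ (c - p / (2 - p)) * g := h3
      _ ≤ (c - p / (2 - p)) * (x i + η / (c - p / (2 - p))) := by gcongr
      _ = (c - p / (2 - p)) * x i + η := by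
        rw [mul_add, mul_div_cancel₀ _ hcb.ne']

end cyc

end Pool.Agent.H323.Rays
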