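import Mathlib

open MeasureTheory
open scoped ENNReal

namespace Pool.Agent.H323.Rays

/-- The motion of a searcher on the union of `m` half-lines (rays, numbered `0, ..., m - 1`) glued at
a common origin `O`, as a sequence of legs: leg `n` is a straight move on the ray `ray n`, from the
point at distance `dist n` from `O` to the point at distance `dist (n + 1)` from `O`. -/
structure Path where
  ray : ℕ → ℕ
  dist : ℕ → ℝ

/-- The time at which leg `n` begins; the speed is `1`. -/
noncomputable def startTime (T : Path) (n : ℕ) : ℝ :=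
  ∑ i ∈ Finset.range n, |T.dist (i + 1) - T.dist i|

/-- `T` is a trajectory on `m` rays: it starts at `O`, every leg has positive length, the ray is
changed only at `O`, and the total length is infinite. -/
structure IsTrajectory (m : ℕ) (T : Path) : Prop where
  ray_lt : ∀ n, T.ray n < m
  start : T.dist 0 = 0
  nonneg : ∀ n, 0 ≤ T.dist n
  moves : ∀ n, T.dist (n + 1) ≠ T.dist n
  change : ∀ n, T.ray (n + 1) ≠ T.ray n → T.dist (n + 1) = 0
  length : ¬ Summable fun n => |T.dist (n + 1) - T.dist n|

/-- At time `t` the searcher is on ray `j` at distance `d` from `O`. -/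
def IsAt (T : Path) (t : ℝ) (j : ℕ) (d : ℝ) : Prop :=
  ∃ n : ℕ, T.ray n = j ∧ ∃ s ∈ Set.Icc (0 : ℝ) 1,
    t = startTime T n + s * |T.dist (n + 1) - T.dist n| ∧
      d = T.dist n + s * (T.dist (n + 1) - T.dist n)

/-- At time `t` the searcher reverses its direction of motion on ray `j` at distance `d`. -/
def ReversesAt (T : Path) (t : ℝ) (j : ℕ) (d : ℝ) : Prop :=
  ∃ n : ℕ, T.ray n = j ∧ T.ray (n + 1) = j ∧ T.dist (n + 1) = d ∧
    (T.dist (n + 2) - T.dist (n + 1)) * (T.dist (n + 1) - T.dist n) < 0 ∧
      t = startTime T (n + 1)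

/-- The time of the `k`-th pass over the point on ray `j` at distance `d` (infinite if there are
fewer than `k` passes). -/
noncomputable def passTime (T : Path) (j : ℕ) (d : ℝ) (k : ℕ) : ℝ≥0∞ :=
  ⨅ (t : ℝ) (_ : (k : ℕ∞) ≤ {s : ℝ | s ≤ t ∧ IsAt T s j d}.encard), ENNReal.ofReal t

/-- The outcome of one pass: detection (`true`) with probability `p`. -/
noncomputable def coin (p : ℝ) : Measure Bool :=
  ENNReal.ofReal p • Measure.dirac true + ENNReal.ofReal (1 - p) • Measure.dirac false

/-- The time of the first detection of a treasure on ray `j` at distance `d`, when `ω k` tells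
whether the `(k + 1)`-st pass is a detection; detection is certain at a reversal of direction. -/
noncomputable def detectionTime (T : Path) (j : ℕ) (d : ℝ) (ω : ℕ → Bool) : ℝ≥0∞ :=
  (⨅ (k : ℕ) (_ : ω k = true), passTime T j d (k + 1)) ⊓
    ⨅ (t : ℝ) (_ : ReversesAt T t j d), ENNReal.ofReal t

/-- The expected time of the first detection, the outcomes of the passes being independent. -/
noncomputable def expectedTime (p : ℝ) (T : Path) (j : ℕ) (d : ℝ) : ℝ≥0∞ :=
  ∫⁻ ω, detectionTime T j d ω ∂(Measure.infinitePi fun _ : ℕ => coin p)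

/-- The competitive ratio of `T`: the supremum of `p E / d` over the `m` rays and the distances
`d ≥ 1`. -/
noncomputable def competitiveRatio (m : ℕ) (p : ℝ) (T : Path) : ℝ≥0∞ :=
  ⨆ (j : ℕ) (_ : j < m) (d : ℝ) (_ : 1 ≤ d),
    ENNReal.ofReal p * expectedTime p T j d / ENNReal.ofReal d

/-- `T` is cyclic monotone: excursion `k` (`k = 0, 1, ...`) goes from `O` out on ray `k mod m` to
distance `x k` and back to `O`, and on each ray the turning distances increase strictly to
infinity. -/
def IsCyclicMonotone (m : ℕ) (T : Path) : Prop :=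
  ∃ x : ℕ → ℝ, (∀ k, 0 < x k) ∧ (∀ k, x k < x (k + m)) ∧
    (∀ j, Filter.Tendsto (fun l : ℕ => x (j + m * l)) Filter.atTop Filter.atTop) ∧
      ∀ k, T.ray (2 * k) = k % m ∧ T.ray (2 * k + 1) = k % m ∧ T.dist (2 * k) = 0 ∧
        T.dist (2 * k + 1) = x k

end Pool.Agent.H323.Rays
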