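import Pool.Agent.H323.Rays.Main
import Pool.Agent.Helper569.FaultyFinal

open MeasureTheory
open scoped ENNReal

namespace Pool.Agent.H323.Rays

open Pool.Agent.Helper569.Faulty (S S_zero S_succ S_nonneg S_mono hasSum_pq hasSum_alt
  ofReal_sum_le S_div)

variable {x : ℕ → ℝ} {m : ℕ} {ε p c : ℝ}

lemma locate {x : ℕ → ℝ} {m j0 : ℕ} {g : ℝ} (h0 : x j0 ≤ g) (hex : ∃ l, g < x (j0 + m * l)) :
    ∃ l, x (j0 + m * l) ≤ g ∧ g < x (j0 + m * l + m) := by
  classical
  have hspec := Nat.find_spec hex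
  have hne : Nat.find hex ≠ 0 := by
    intro h
    rw [h, mul_zero, add_zero] at hspec
    linarith
  obtain ⟨l, hl⟩ := Nat.exists_eq_succ_of_ne_zero hne
  refine ⟨l, ?_, ?_⟩
  · by_contra h
    push Not at h
    have := Nat.find_min' hex h
    omega
  · rwa [hl, show j0 + m * l.succ = j0 + m * l + m by rw [Nat.succ_eq_add_one]; ring] at hspec

theorem improve (hm : 2 ≤ m) (hp0 : 0 < p) (hp1 : p < 1) {C : ℝ} (hC : 1 ≤ C) (hc0 : 0 ≤ c)
    (hcC : c ≤ C) {T : Path} (hym : IsCyclicMonotone m T)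
    (hr : competitiveRatio m p T ≤ ENNReal.ofReal (p * c)) :
    ∃ T' : Path, IsTrajectory m T' ∧ competitiveRatio m p T' ≤
      ENNReal.ofReal (p * (c - 2 * p * (1 - p) * (p * (1 - p) ^ 2 / (4 * C)))) ∧
      0 ≤ c - 2 * p * (1 - p) * (p * (1 - p) ^ 2 / (4 * C)) := by
  obtain ⟨x, hx0, hx, htend, hT'⟩ := hym
  have hT : IsCyc m x T := hT'
  have hq0 : 0 < 1 - p := by linarith
  set ε := p * (1 - p) ^ 2 / (4 * C) with hεdef
  have hε : 0 < ε := by positivity
  have hpq2 : p * (1 - p) ^ 2 ≤ 1 := by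
    have h1 : (1 - p) ^ 2 ≤ 1 := pow_le_one₀ hq0.le (by linarith)
    nlinarith
  have hεC : ε * (4 * C) = p * (1 - p) ^ 2 := by
    rw [hεdef, div_mul_cancel₀]
    positivity
  have hε1 : ε ≤ 1 / 4 := by
    rw [hεdef, div_le_iff₀ (by positivity)]
    linarith
  have hεc : ε * (c + 2 * p * (1 - p)) ≤ 2 * p * (1 - p) ^ 2 := by
    have h1 : 2 * p * (1 - p) ≤ 1 := by nlinarith [sq_nonneg (2 * p - 1)]
    have h2 : ε * (c + 2 * p * (1 - p)) ≤ ε * (4 * C) := by
      apply mul_le_mul_of_nonneg_left _ hε.le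
      linarith
    have h3 : 0 < p * (1 - p) ^ 2 := by positivity
    linarith
  -- the starting index
  obtain ⟨L, hL1, hL⟩ : ∃ L, 1 ≤ L ∧ ∀ j ∈ Finset.range m, 1 ≤ x (j + m * L) := by
    have h1 : ∀ᶠ l in Filter.atTop, ∀ j ∈ Finset.range m, 1 ≤ x (j + m * l) := by
      rw [Filter.eventually_all_finset]
      intro j _
      exact (htend j).eventually_ge_atTop 1
    exact ((Filter.eventually_ge_atTop 1).and h1).exists
  set R := ∑ j ∈ Finset.range m, x (j + m * L) with hR
  have hjR : ∀ j, j < m → x (j + m * L) ≤ R := fun j hj =>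
    Finset.single_le_sum (f := fun j => x (j + m * L)) (fun i _ => (hx0 _).le)
      (Finset.mem_range.2 hj)
  have hR1 : 1 ≤ R := (hL 0 (Finset.mem_range.2 (by omega))).trans (hjR 0 (by omega))
  have hR0 : 0 < R := by linarith
  set x' : ℕ → ℝ := fun n => x n / R with hx'
  have hx0' : ∀ n, 0 < x' n := fun n => div_pos (hx0 n) hR0
  have hxm' : ∀ n, x' n < x' (n + m) := fun n => div_lt_div_of_pos_right (hx n) hR0
  -- the main estimate for one point
  have main : ∀ j : ℕ, j < m → ∀ g : ℝ, 1 ≤ g →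
      expectedTime p (zig x' m ε) j g ≤
        ENNReal.ofReal ((c - 2 * p * (1 - p) * ε) * g) := by
    intro j hj g hg
    have hxj0 : 1 ≤ x (j + m * L) := hL j (Finset.mem_range.2 hj)
    have hstart : x' (j + m * L) ≤ g := by
      have : x' (j + m * L) ≤ 1 := by
        change x (j + m * L) / R ≤ 1
        rw [div_le_one hR0]; exact hjR j hj
      linarith
    have hex : ∃ l, g < x' (j + m * L + m * l) := by
      obtain ⟨n, hnL, hn⟩ := ((Filter.eventually_ge_atTop L).and
        ((htend j).eventually_gt_atTop (R * g))).exists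
      refine ⟨n - L, ?_⟩
      have h1 : j + m * L + m * (n - L) = j + m * n := by
        rw [add_assoc, ← mul_add, Nat.add_sub_cancel' hnL]
      rw [h1]
      change g < x (j + m * n) / R
      rw [lt_div_iff₀ hR0]
      linarith
    obtain ⟨l, hmin, hspec⟩ := locate hstart hex
    set i := j + m * L + m * l with hi
    have him : m ≤ i := by
      have : m * 1 ≤ m * L := Nat.mul_le_mul_left m hL1
      omega
    have hxi : 1 ≤ x i := hxj0.trans (x_mono hx _ _)
    obtain ⟨hS, hA⟩ := key_bound hm hp0 hp1 hc0 hx0 hx hT hr hxi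
    have hfun : (fun k : ℕ => p * (1 - p) ^ k * S x' (i + m + e m k)) =
        fun k : ℕ => (p * (1 - p) ^ k * S x (i + m + e m k)) / R := by
      funext k
      rw [hx', S_div]
      ring
    have hS' : Summable (fun k : ℕ => p * (1 - p) ^ k * S x' (i + m + e m k)) := by
      rw [hfun]
      exact hS.div_const R
    have hA' : ∑' k : ℕ, p * (1 - p) ^ k * S x' (i + m + e m k) ≤
        (c - p / (2 - p)) * x' i := by
      rw [hfun, tsum_div_const]
      change _ ≤ (c - p / (2 - p)) * (x i / R)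
      rw [← mul_div_assoc]
      exact div_le_div_of_nonneg_right hA hR0.le
    have h1 := bound_all hm hp0 hp1 hx0' hxm' hε hε1 hεc him hmin hspec hS' hA'
    have h2 : i % m = j := by
      rw [hi, Nat.add_mul_mod_self_left, Nat.add_mul_mod_self_left, Nat.mod_eq_of_lt hj]
    rwa [h2] at h1
  have hnonneg : 0 ≤ c - 2 * p * (1 - p) * ε := by
    by_contra hneg
    push Not at hneg
    have hxN := hL 0 (Finset.mem_range.2 (by omega))
    obtain ⟨hS, hA⟩ := key_bound hm hp0 hp1 hc0 hx0 hx hT hr hxN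
    have hA0 : 0 ≤ ∑' k : ℕ, p * (1 - p) ^ k * S x (0 + m * L + m + e m k) := by
      apply tsum_nonneg
      intro k
      have h1 := S_nonneg hx0 (0 + m * L + m + e m k)
      positivity
    have hB : p / 2 ≤ p / (2 - p) := by
      apply div_le_div_of_nonneg_left hp0.le <;> linarith
    have hcB : p / (2 - p) ≤ c := by
      by_contra hneg'
      push Not at hneg'
      have : (c - p / (2 - p)) * x (0 + m * L) < 0 :=
        mul_neg_of_neg_of_pos (by linarith) (by linarith)
      linarith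
    have h5 : (1 - p) * ε ≤ 1 * (1 / 4) := mul_le_mul (by linarith) hε1 hε.le zero_le_one
    have h6 : 2 * p * ((1 - p) * ε) ≤ 2 * p * (1 * (1 / 4)) :=
      mul_le_mul_of_nonneg_left h5 (by positivity)
    linarith
  refine ⟨zig x' m ε, isTrajectory_zig hm hx0' hxm' hε, ?_, hnonneg⟩
  rw [ratio_le_iff hp0 hnonneg]
  exact main

/-! ### a trajectory with finite ratio -/

/-- the path with the excursions to distance `x k` on ray `k % m` -/
noncomputable def cyc (m : ℕ) (x : ℕ → ℝ) : Path where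
  ray n := (n / 2) % m
  dist n := if n % 2 = 0 then 0 else x (n / 2)

lemma isCyc_cyc (m : ℕ) (x : ℕ → ℝ) : IsCyc m x (cyc m x) := by
  intro k
  have h1 : (2 * k) % 2 = 0 := by omega
  have h2 : ¬ (2 * k + 1) % 2 = 0 := by omega
  have h3 : (2 * k) / 2 = k := by omega
  have h4 : (2 * k + 1) / 2 = k := by omega
  refine ⟨?_, ?_, ?_, ?_⟩
  · simp only [cyc, h3]
  · simp only [cyc, h4]
  · simp only [cyc, if_pos h1]
  · simp only [cyc, if_neg h2, h4]

lemma isTrajectory_cyc (hm : 2 ≤ m) (hx0 : ∀ n, 0 < x n) (hx : ∀ n, x n < x (n + m)) :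
    IsTrajectory m (cyc m x) := by
  have hc := isCyc_cyc m x
  have hd2 : ∀ k, (cyc m x).dist (2 * k + 1 + 1) = 0 := fun k => (hc (k + 1)).2.2.1
  refine ⟨fun n => Nat.mod_lt _ (by omega), (hc 0).2.2.1, ?_, ?_, ?_, ?_⟩
  · intro n
    obtain ⟨k, rfl | rfl⟩ : ∃ k, n = 2 * k ∨ n = 2 * k + 1 := ⟨n / 2, by omega⟩
    · rw [(hc k).2.2.1]
    · rw [(hc k).2.2.2]; exact (hx0 k).le
  · intro n
    obtain ⟨k, rfl | rfl⟩ : ∃ k, n = 2 * k ∨ n = 2 * k + 1 := ⟨n / 2, by omega⟩
    · rw [(hc k).2.2.1, (hc k).2.2.2]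
      exact (hx0 k).ne'
    · rw [hd2 k, (hc k).2.2.2]
      exact (hx0 k).ne
  · intro n
    obtain ⟨k, rfl | rfl⟩ : ∃ k, n = 2 * k ∨ n = 2 * k + 1 := ⟨n / 2, by omega⟩
    · rw [(hc k).1, (hc k).2.1]
      intro h
      exact absurd rfl h
    · intro _
      exact hd2 k
  · intro hsum
    have h1 := hsum.tendsto_atTop_zero
    have h2 : Filter.Tendsto (fun l : ℕ => 2 * (m * l)) Filter.atTop Filter.atTop := by
      apply Filter.tendsto_atTop_mono (f := fun l : ℕ => l)
      · intro l
        have : 1 * l ≤ m * l := Nat.mul_le_mul_right l (by omega)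
        omega
      · exact Filter.tendsto_id
    have h3 := h1.comp h2
    have h4 : ∀ l : ℕ, x 0 ≤ ((fun i => |(cyc m x).dist (i + 1) - (cyc m x).dist i|) ∘
        (fun l : ℕ => 2 * (m * l))) l := by
      intro l
      simp only [Function.comp]
      rw [(hc (m * l)).2.2.1, (hc (m * l)).2.2.2, sub_zero]
      have a1 : x 0 ≤ x (m * l) := by
        have := x_mono hx 0 l
        rwa [zero_add] at this
      exact a1.trans (le_abs_self _)
    have h5 := ge_of_tendsto' h3 h4
    linarith [hx0 0]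

/-- geometric turning points -/
noncomputable def gx (m : ℕ) (r : ℝ) (n : ℕ) : ℝ := r ^ n / r ^ m

lemma gx_pos {r : ℝ} (hr : 1 < r) (n : ℕ) : 0 < gx m r n := by
  unfold gx
  positivity

lemma gx_lt {r : ℝ} (hm : 2 ≤ m) (hr : 1 < r) (n : ℕ) : gx m r n < gx m r (n + m) := by
  unfold gx
  apply div_lt_div_of_pos_right _ (by positivity)
  exact pow_lt_pow_right₀ hr (by omega)

lemma S_gx_le {r : ℝ} (hr : 1 < r) (n : ℕ) : S (gx m r) n ≤ 2 / (r - 1) * gx m r n := by
  induction n with
  | zero =>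
    rw [S_zero]
    have := gx_pos (m := m) hr 0
    have h1 : 0 < r - 1 := by linarith
    positivity
  | succ n ih =>
    rw [S_succ]
    have h1 : gx m r (n + 1) = r * gx m r n := by unfold gx; rw [pow_succ]; ring
    have h2 : 0 < r - 1 := by linarith
    have h3 : 2 / (r - 1) * (r * gx m r n) = 2 / (r - 1) * gx m r n + 2 * gx m r n := by
      field_simp
      ring
    rw [h1, h3]
    linarith

lemma e_le (hm : 2 ≤ m) (k : ℕ) : e m k ≤ m * k := by
  unfold e
  have h1 : k = k / 2 + (k / 2 + k % 2) := by omega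
  have h2 : m * k = m * (k / 2) + (m * (k / 2) + m * (k % 2)) := by
    conv_lhs => rw [h1]
    ring
  have h3 : 1 * (k % 2) ≤ m * (k % 2) := Nat.mul_le_mul_right _ (by omega)
  omega

lemma finite_ratio (hm : 2 ≤ m) (hp0 : 0 < p) (hp1 : p < 1) : ∃ T : Path, IsTrajectory m T ∧
    IsCyclicMonotone m T ∧ ∃ c : ℝ, 0 ≤ c ∧
      competitiveRatio m p T ≤ ENNReal.ofReal (p * c) := by
  have hq0 : 0 < 1 - p := by linarith
  set b : ℝ := 2 / (2 - p) with hb
  have hb1 : 1 < b := by
    rw [hb, lt_div_iff₀ (by linarith)]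
    linarith
  have hqb : (1 - p) * b < 1 := by
    rw [hb, ← mul_div_assoc, div_lt_one (by linarith)]
    linarith
  have hqb0 : 0 < (1 - p) * b := by positivity
  obtain ⟨r, hr1, hrb⟩ : ∃ r : ℝ, 1 < r ∧ r ^ m = b := by
    refine ⟨b ^ ((m : ℝ)⁻¹), Real.one_lt_rpow hb1 ?_, ?_⟩
    · have : (0 : ℝ) < m := by exact_mod_cast (by omega : 0 < m)
      positivity
    · exact Real.rpow_inv_natCast_pow (by linarith) (by omega)
  have hx0 : ∀ n, 0 < gx m r n := gx_pos hr1
  have hx := gx_lt hm hr1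
  have hgeo := (hasSum_geometric_of_lt_one hqb0.le hqb).mul_left (p * (2 / (r - 1) * b))
  have hsum := hgeo.add (hasSum_pq hp0 hp1)
  set c := p * (2 / (r - 1) * b) * (1 - (1 - p) * b)⁻¹ + 1 with hc
  have hr0 : 0 < r - 1 := by linarith
  have hc0 : 0 ≤ c := by
    have : 0 < 1 - (1 - p) * b := by linarith
    positivity
  have hT := isCyc_cyc m (gx m r)
  have hunb : ∀ j, Filter.Tendsto (fun l : ℕ => gx m r (j + m * l)) Filter.atTop
      Filter.atTop := by
    intro j
    have h1 : Filter.Tendsto (fun l : ℕ => j + m * l) Filter.atTop Filter.atTop := by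
      apply Filter.tendsto_atTop_mono (f := fun l : ℕ => l)
      · intro l
        have : 1 * l ≤ m * l := Nat.mul_le_mul_right l (by omega)
        omega
      · exact Filter.tendsto_id
    have h2 : Filter.Tendsto (fun n : ℕ => gx m r n) Filter.atTop Filter.atTop := by
      unfold gx
      exact (tendsto_pow_atTop_atTop_of_one_lt hr1).atTop_div_const (by positivity)
    exact h2.comp h1
  refine ⟨cyc m (gx m r), isTrajectory_cyc hm hx0 hx, ⟨gx m r, hx0, hx, hunb, hT⟩, c, hc0, ?_⟩
  rw [ratio_le_iff hp0 hc0]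
  intro j hj g hg
  have hstart : gx m r j ≤ g := by
    have : gx m r j ≤ 1 := by
      unfold gx
      rw [div_le_one (by positivity)]
      exact pow_le_pow_right₀ hr1.le (by omega)
    linarith
  have hex : ∃ l, g < gx m r (j + m * l) := ((hunb j).eventually_gt_atTop g).exists
  obtain ⟨l, hmin, hspec⟩ := locate hstart hex
  set i := j + m * l with hi
  have hg0 : 0 < g := by linarith
  have h1 := expectedTime_le hp0 hp1.le (tau_strictMono hm hx0 hx hg0 hspec)
    (isAt_passes hx0 hx hT hg0 hspec)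
  have h2 : i % m = j := by
    rw [hi, Nat.add_mul_mod_self_left, Nat.mod_eq_of_lt hj]
  rw [h2] at h1
  refine h1.trans ?_
  have hb : ∀ k, tau (gx m r) m i g k ≤ (2 / (r - 1) * b * b ^ k + 1) * g := by
    intro k
    unfold tau
    have h2 := S_gx_le (m := m) hr1 (i + m + e m k)
    have h3 : gx m r (i + m + e m k) ≤ b * b ^ k * gx m r i := by
      have h31 : gx m r (i + m + e m k) = b * r ^ (e m k) * gx m r i := by
        unfold gx
        rw [pow_add, pow_add, ← hrb]
        ring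
      have h32 : r ^ (e m k) ≤ b ^ k := by
        rw [← hrb, ← pow_mul]
        exact pow_le_pow_right₀ hr1.le (e_le hm k)
      rw [h31]
      apply mul_le_mul_of_nonneg_right _ (hx0 i).le
      exact mul_le_mul_of_nonneg_left h32 (by linarith)
    have h4 : (-1 : ℝ) ^ k * g ≤ g := by
      rcases neg_one_pow_eq_or ℝ k with h | h <;> rw [h] <;> linarith
    have h5 : 2 / (r - 1) * gx m r (i + m + e m k) ≤ 2 / (r - 1) * b * b ^ k * g := by
      calc 2 / (r - 1) * gx m r (i + m + e m k) ≤ 2 / (r - 1) * (b * b ^ k * gx m r i) :=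
            mul_le_mul_of_nonneg_left h3 (by positivity)
        _ = (2 / (r - 1) * b * b ^ k) * gx m r i := by ring
        _ ≤ (2 / (r - 1) * b * b ^ k) * g := by
            apply mul_le_mul_of_nonneg_left hmin
            positivity
    linarith
  have hT : HasSum (fun k : ℕ => p * (1 - p) ^ k * ((2 / (r - 1) * b * b ^ k + 1) * g))
      (c * g) := by
    have h6 := hsum.mul_right g
    have e1 : (fun k : ℕ => p * (1 - p) ^ k * ((2 / (r - 1) * b * b ^ k + 1) * g)) =
        fun k : ℕ => (p * (2 / (r - 1) * b) * ((1 - p) * b) ^ k + p * (1 - p) ^ k) * g := by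
      funext k
      rw [mul_pow]
      ring
    rw [e1]
    exact h6
  exact ofReal_sum_le hp0 hp1 hb (fun k => by positivity) hT

theorem strict (hm : 2 ≤ m) (hp0 : 0 < p) (hp1 : p < 1) :
    (⨅ (T : Path) (_ : IsTrajectory m T), competitiveRatio m p T) <
      ⨅ (T : Path) (_ : IsTrajectory m T) (_ : IsCyclicMonotone m T),
        competitiveRatio m p T := by
  set I := ⨅ (T : Path) (_ : IsTrajectory m T), competitiveRatio m p T with hI
  set J := ⨅ (T : Path) (_ : IsTrajectory m T) (_ : IsCyclicMonotone m T),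
    competitiveRatio m p T with hJ
  obtain ⟨y0, hy0t, hy0m, c0, hc0, hy0r⟩ := finite_ratio hm hp0 hp1
  have hJle : J ≤ ENNReal.ofReal (p * c0) := by
    refine le_trans ?_ hy0r
    exact iInf_le_of_le y0 (iInf_le_of_le hy0t (iInf_le_of_le hy0m le_rfl))
  have hJtop : J ≠ ⊤ := ne_top_of_le_ne_top ENNReal.ofReal_ne_top hJle
  set j := J.toReal with hj
  have hj0 : 0 ≤ j := ENNReal.toReal_nonneg
  have hJj : J = ENNReal.ofReal j := (ENNReal.ofReal_toReal hJtop).symm
  have hq0 : 0 < 1 - p := by linarith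
  set C := j / p + 1 with hC
  have hC1 : 1 ≤ C := by
    have : 0 ≤ j / p := by positivity
    linarith
  set δ := 2 * p * (1 - p) * (p * (1 - p) ^ 2 / (4 * C)) with hδ
  have hδ0 : 0 < δ := by positivity
  set η := min p (p * δ / 2) with hη
  have hη0 : 0 < η := lt_min hp0 (by positivity)
  -- a nearly optimal cyclic monotone trajectory
  have hlt : J < ENNReal.ofReal (j + η) := by
    rw [hJj]
    exact (ENNReal.ofReal_lt_ofReal_iff (by linarith)).2 (by linarith)
  obtain ⟨y, hy⟩ := iInf_lt_iff.1 hlt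
  obtain ⟨hyt, hy⟩ := iInf_lt_iff.1 hy
  obtain ⟨hym, hy⟩ := iInf_lt_iff.1 hy
  set c := (j + η) / p with hc
  have hpc : p * c = j + η := by
    rw [hc, mul_div_cancel₀ _ hp0.ne']
  have hcnn : 0 ≤ c := by positivity
  have hcC : c ≤ C := by
    rw [hc, hC, add_div]
    have : η / p ≤ 1 := by
      rw [div_le_one hp0]
      exact min_le_left _ _
    linarith
  obtain ⟨y', hy't, hy'r, hnn⟩ := improve hm hp0 hp1 hC1 hcnn hcC hym (by rw [hpc]; exact hy.le)
  have hI1 : I ≤ ENNReal.ofReal (p * (c - δ)) := by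
    refine le_trans ?_ hy'r
    exact iInf_le_of_le y' (iInf_le_of_le hy't le_rfl)
  refine hI1.trans_lt ?_
  rw [hJj]
  have h1 : p * (c - δ) ≤ j - p * δ / 2 := by
    rw [mul_sub, hpc]
    have : η ≤ p * δ / 2 := min_le_right _ _
    linarith
  have h2 : 0 ≤ p * (c - δ) := mul_nonneg hp0.le hnn
  have h3 : 0 < p * δ := by positivity
  exact (ENNReal.ofReal_lt_ofReal_iff (by linarith)).2 (by linarith)

end Pool.Agent.H323.Rays
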