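import Pool.Agent.H323.Rays.Zig

open MeasureTheory
open scoped ENNReal

namespace Pool.Agent.H323.Rays

open Pool.Agent.Helper569.Faulty (S S_zero S_succ S_nonneg S_mono hasSum_pq hasSum_alt
  ofReal_sum_le)

variable {x : ℕ → ℝ} {m : ℕ} {ε p c : ℝ}

/-- upper bound for the passes in the basic list -/
noncomputable def bb (x : ℕ → ℝ) (m : ℕ) (ε : ℝ) (i : ℕ) (g : ℝ) (k : ℕ) : ℝ :=
  S x (i + m + e m k) + ε * S x (i + 1 + e m k) + (-1) ^ k * g

lemma bb_sum (hm : 2 ≤ m) (hp0 : 0 < p) (hp1 : p < 1) (hx0 : ∀ n, 0 < x n) (hε : 0 < ε) {i : ℕ}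
    {g : ℝ} (hgi : g ≤ x (i + m))
    (hS : Summable (fun k : ℕ => p * (1 - p) ^ k * S x (i + m + e m k))) :
    ∃ T, HasSum (fun k : ℕ => p * (1 - p) ^ k * bb x m ε i g k) T ∧
      T ≤ (1 + ε) * (∑' k : ℕ, p * (1 - p) ^ k * S x (i + m + e m k)) + p / (2 - p) * g -
        2 * p * (1 - p) * ε * g := by
  have hq0 : 0 < 1 - p := by linarith
  have hD : Summable (fun k : ℕ => p * (1 - p) ^ k * S x (i + 1 + e m k)) := by
    apply Summable.of_nonneg_of_le _ _ hS
    · intro k
      have := S_nonneg hx0 (i + 1 + e m k)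
      positivity
    · intro k
      apply mul_le_mul_of_nonneg_left (S_mono hx0 (by omega)) (by positivity)
  have h1 := (hS.hasSum.add (hD.hasSum.mul_left ε)).add ((hasSum_alt hp0 hp1).mul_right g)
  have e1 : (fun k : ℕ => p * (1 - p) ^ k * bb x m ε i g k) = fun k : ℕ =>
      p * (1 - p) ^ k * S x (i + m + e m k) + ε * (p * (1 - p) ^ k * S x (i + 1 + e m k)) +
        p * (1 - p) ^ k * (-1) ^ k * g := by
    funext k
    unfold bb
    ring
  refine ⟨_, e1 ▸ h1, ?_⟩
  · have h2 : 2 * p * (1 - p) * g ≤ ∑' k : ℕ, p * (1 - p) ^ k * S x (i + m + e m k) -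
        ∑' k : ℕ, p * (1 - p) ^ k * S x (i + 1 + e m k) := by
      rw [← hS.tsum_sub hD]
      have h3 : Summable (fun k : ℕ => p * (1 - p) ^ k * S x (i + m + e m k) -
        p * (1 - p) ^ k * S x (i + 1 + e m k)) := hS.sub hD
      refine le_trans ?_ (h3.le_tsum 1 (fun k _ => ?_))
      · have h4 : S x (i + m + 1) = S x (i + m) + 2 * x (i + m) := S_succ x (i + m)
        have h5 : S x (i + 1 + 1) ≤ S x (i + m) := S_mono hx0 (by omega)
        rw [e_one, pow_one, h4]
        have h6 : 0 < p * (1 - p) := by positivity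
        have h7 : 2 * g ≤ S x (i + m) + 2 * x (i + m) - S x (i + 1 + 1) := by linarith
        have h8 := mul_le_mul_of_nonneg_left h7 h6.le
        linarith
      · rw [← mul_sub]
        have : S x (i + 1 + e m k) ≤ S x (i + m + e m k) := S_mono hx0 (by omega)
        have h5 : 0 ≤ S x (i + m + e m k) - S x (i + 1 + e m k) := by linarith
        positivity
    nlinarith

lemma S_le_A (hm : 2 ≤ m) (hp0 : 0 < p) (hp1 : p < 1) (hx0 : ∀ n, 0 < x n)
    (hx : ∀ n, x n < x (n + m)) {i : ℕ}
    (hS : Summable (fun k : ℕ => p * (1 - p) ^ k * S x (i + m + e m k))) :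
    S x (i + m) + 2 * (1 - p) * x i ≤ ∑' k : ℕ, p * (1 - p) ^ k * S x (i + m + e m k) := by
  have hq0 : 0 < 1 - p := by linarith
  have h1 := ((hasSum_pq hp0 hp1).mul_right (S x (i + m) + 2 * x i)).sub
    (hasSum_ite_eq 0 (p * (2 * x i)))
  have h2 : ∀ k : ℕ, p * (1 - p) ^ k * (S x (i + m) + 2 * x i) -
      (if k = 0 then p * (2 * x i) else 0) ≤ p * (1 - p) ^ k * S x (i + m + e m k) := by
    intro k
    rcases Nat.eq_zero_or_pos k with rfl | hk
    · simp only [if_true, pow_zero, mul_one, e_zero, add_zero]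
      linarith
    · rw [if_neg (by omega), sub_zero]
      apply mul_le_mul_of_nonneg_left _ (by positivity)
      have he := e_pos hm hk
      have h3 : S x (i + m + 1) ≤ S x (i + m + e m k) := S_mono hx0 (by omega)
      rw [S_succ] at h3
      linarith [hx i]
  have h3 := hasSum_le h2 h1 hS.hasSum
  linarith

lemma bb_nonneg (hm : 2 ≤ m) (hx0 : ∀ n, 0 < x n) (hx : ∀ n, x n < x (n + m)) (hε : 0 < ε)
    {i : ℕ} {g : ℝ} (hg : 0 < g) (hgi : g < x (i + m)) (k : ℕ) : 0 ≤ bb x m ε i g k := by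
  have h1 := beta_le (m := m) hx0 hε i g k
  have h2 := (beta_strictMono hm hx0 hx hε hg hgi).monotone (Nat.zero_le k)
  have h3 : 0 ≤ beta x m ε i g 0 := by
    rw [beta_zero]
    have h5 : S x m ≤ S x (i + m) := S_mono hx0 (by omega)
    have h4 := W_mono hx0 hx hε (Nat.zero_le (i + 1))
    rw [W_zero] at h4
    linarith
  unfold bb
  linarith

/-- the case where the point lies beyond the additional turning point -/
lemma bound_B (hm : 2 ≤ m) (hp0 : 0 < p) (hp1 : p < 1) (hx0 : ∀ n, 0 < x n)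
    (hx : ∀ n, x n < x (n + m)) (hε : 0 < ε) {i : ℕ} {g : ℝ} (hgi0 : x i ≤ g)
    (hgi : g < x (i + m)) (hz : zz x m ε i ≤ g)
    (hS : Summable (fun k : ℕ => p * (1 - p) ^ k * S x (i + m + e m k)))
    (hA : ∑' k : ℕ, p * (1 - p) ^ k * S x (i + m + e m k) ≤ (c - p / (2 - p)) * x i) :
    expectedTime p (zig x m ε) (i % m) g ≤
      ENNReal.ofReal ((c - 2 * p * (1 - p) * ε) * g) := by
  have hg : 0 < g := (hx0 i).trans_le hgi0
  obtain ⟨T, hT1, hT2⟩ := bb_sum (ε := ε) hm hp0 hp1 hx0 hε hgi.le hS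
  refine (expectedTime_le hp0 hp1.le (beta_strictMono hm hx0 hx hε hg hgi)
    (beta_pass hm hx0 hx hε hgi0 hgi)).trans ?_
  refine (ofReal_sum_le hp0 hp1 (beta_le hx0 hε i g) (bb_nonneg hm hx0 hx hε hg hgi) hT1).trans ?_
  apply ENNReal.ofReal_le_ofReal
  have hz' : (1 + ε) * x i ≤ g := by
    unfold zz at hz
    rcases min_le_iff.1 hz with h | h
    · exact h
    · linarith
  have hA0 : 0 ≤ ∑' k : ℕ, p * (1 - p) ^ k * S x (i + m + e m k) := by
    apply tsum_nonneg
    intro k
    have h1 := S_nonneg hx0 (i + m + e m k)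
    have : 0 < 1 - p := by linarith
    positivity
  have hcB : 0 ≤ c - p / (2 - p) := by
    by_contra hneg
    push Not at hneg
    have := mul_neg_of_neg_of_pos hneg (hx0 i)
    linarith
  have h5 : (1 + ε) * (∑' k : ℕ, p * (1 - p) ^ k * S x (i + m + e m k)) ≤
      (c - p / (2 - p)) * g := by
    calc (1 + ε) * (∑' k : ℕ, p * (1 - p) ^ k * S x (i + m + e m k))
        ≤ (1 + ε) * ((c - p / (2 - p)) * x i) := by gcongr
      _ = (c - p / (2 - p)) * ((1 + ε) * x i) := by ring
      _ ≤ (c - p / (2 - p)) * g := by gcongr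
  linarith

/-- the case where the point lies between the old and the additional turning point -/
lemma bound_A (hm : 2 ≤ m) (hp0 : 0 < p) (hp1 : p < 1) (hx0 : ∀ n, 0 < x n)
    (hx : ∀ n, x n < x (n + m))
    (hε : 0 < ε) (hε1 : ε ≤ 1 / 4) (hεc : ε * (c + 2 * p * (1 - p)) ≤ 2 * p * (1 - p) ^ 2)
    {i : ℕ} {g : ℝ} (hgi0 : x i ≤ g) (hgz : g < zz x m ε i)
    (hS : Summable (fun k : ℕ => p * (1 - p) ^ k * S x (i + m + e m k)))
    (hA : ∑' k : ℕ, p * (1 - p) ^ k * S x (i + m + e m k) ≤ (c - p / (2 - p)) * x i)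
    {τ : ℕ → ℝ} (hτ : StrictMono τ) (hpass : ∀ k, IsAt (zig x m ε) (τ k) (i % m) g)
    (h0 : τ 0 ≤ (1 + ε) * S x (i + m) + g)
    (h1 : τ 1 ≤ (1 + ε) * S x (i + m) + 2 * zz x m ε i - g)
    (h2 : ∀ k, τ (k + 2) ≤ bb x m ε i g k) :
    expectedTime p (zig x m ε) (i % m) g ≤
      ENNReal.ofReal ((c - 2 * p * (1 - p) * ε) * g) := by
  have hg : 0 < g := (hx0 i).trans_le hgi0
  have hgi : g < x (i + m) := hgz.trans_le (zz_le i)
  have hq0 : 0 < 1 - p := by linarith
  have hxi := hx0 i
  have hS0 := S_nonneg hx0 (i + m)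
  obtain ⟨T, hT1, hT2⟩ := bb_sum (ε := ε) hm hp0 hp1 hx0 hε hgi.le hS
  set b : ℕ → ℝ := fun k => match k with
    | 0 => (1 + ε) * S x (i + m) + g
    | 1 => (1 + ε) * S x (i + m) + 2 * zz x m ε i - g
    | (k + 2) => bb x m ε i g k with hb
  have hsum : HasSum (fun k : ℕ => p * (1 - p) ^ k * b k)
      ((1 - p) ^ 2 * T + ∑ k ∈ Finset.range 2, p * (1 - p) ^ k * b k) := by
    rw [← hasSum_nat_add_iff 2]
    have h3 := hT1.mul_left ((1 - p) ^ 2)
    have e1 : (fun k : ℕ => p * (1 - p) ^ (k + 2) * b (k + 2)) =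
        fun k : ℕ => (1 - p) ^ 2 * (p * (1 - p) ^ k * bb x m ε i g k) := by
      funext k
      simp only [hb]
      rw [pow_add]
      ring
    rw [e1]
    exact h3
  have hbn : ∀ k, 0 ≤ b k := by
    intro k
    rcases k with _ | _ | k
    · change 0 ≤ (1 + ε) * S x (i + m) + g
      positivity
    · change 0 ≤ (1 + ε) * S x (i + m) + 2 * zz x m ε i - g
      have : 0 ≤ (1 + ε) * S x (i + m) := by positivity
      linarith
    · exact bb_nonneg hm hx0 hx hε hg hgi k
  have hτb : ∀ k, τ k ≤ b k := by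
    intro k
    rcases k with _ | _ | k
    · exact h0
    · exact h1
    · exact h2 k
  refine (expectedTime_le hp0 hp1.le hτ hpass).trans ?_
  refine (ofReal_sum_le hp0 hp1 hτb hbn hsum).trans ?_
  apply ENNReal.ofReal_le_ofReal
  rw [Finset.sum_range_succ, Finset.sum_range_one, pow_zero, pow_one, mul_one]
  change (1 - p) ^ 2 * T + (p * ((1 + ε) * S x (i + m) + g) +
    p * (1 - p) * ((1 + ε) * S x (i + m) + 2 * zz x m ε i - g)) ≤ _
  have hSA := S_le_A hm hp0 hp1 hx0 hx hS
  set A := ∑' k : ℕ, p * (1 - p) ^ k * S x (i + m + e m k) with hAdef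
  have hz := zz_le' (x := x) (m := m) (ε := ε) i
  have hgx : g ≤ (1 + ε) * x i := hgz.le.trans hz
  set q := 1 - p with hq
  have hpq : p = 1 - q := by rw [hq]; ring
  have hq1 : q < 1 := by linarith
  set B := p / (2 - p) with hB
  have hB1 : B * (1 + q) = p := by
    rw [hB, hq]
    have : (2 : ℝ) - p ≠ 0 := by linarith
    field_simp
    ring
  have hB0 : 0 ≤ B := by
    have : 0 < 2 - p := by linarith
    positivity
  -- combine
  have e1 : q ^ 2 * T ≤ q ^ 2 * ((1 + ε) * A + B * g) := by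
    apply mul_le_mul_of_nonneg_left _ (by positivity)
    have : 0 ≤ 2 * p * q * ε * g := by positivity
    linarith
  have e2 : (p + p * q) * ((1 + ε) * S x (i + m)) ≤
      (p + p * q) * ((1 + ε) * (A - 2 * q * x i)) := by
    apply mul_le_mul_of_nonneg_left _ (by positivity)
    apply mul_le_mul_of_nonneg_left _ (by positivity)
    linarith
  have e3 : p * q * (2 * zz x m ε i) ≤ p * q * (2 * ((1 + ε) * x i)) := by
    apply mul_le_mul_of_nonneg_left _ (by positivity)
    linarith
  have e4 : (p * p + q ^ 2 * B) * g ≤ (p * p + q ^ 2 * B) * ((1 + ε) * x i) :=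
    mul_le_mul_of_nonneg_left hgx (by positivity)
  have e5 : (1 + ε) * A ≤ (1 + ε) * ((c - B) * x i) :=
    mul_le_mul_of_nonneg_left hA (by positivity)
  have e6 : q ^ 2 * T + (p * ((1 + ε) * S x (i + m) + g) +
      p * q * ((1 + ε) * S x (i + m) + 2 * zz x m ε i - g)) ≤
      (1 + ε) * x i * (c - 2 * p * q ^ 2) := by
    have hone : q ^ 2 + (p + p * q) = 1 := by rw [hpq]; ring
    have e7 : q ^ 2 * T + (p * ((1 + ε) * S x (i + m) + g) +
        p * q * ((1 + ε) * S x (i + m) + 2 * zz x m ε i - g)) ≤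
        (1 + ε) * A * (q ^ 2 + (p + p * q)) - (p + p * q) * (1 + ε) * (2 * q * x i) +
        p * q * (2 * ((1 + ε) * x i)) + (p * p + q ^ 2 * B) * ((1 + ε) * x i) := by
      have e8 : p * g - p * q * g = p * p * g := by rw [hq]; ring
      nlinarith
    rw [hone, mul_one] at e7
    refine e7.trans ?_
    have e9 : (1 + ε) * ((c - B) * x i) - (p + p * q) * (1 + ε) * (2 * q * x i) +
        p * q * (2 * ((1 + ε) * x i)) + (p * p + q ^ 2 * B) * ((1 + ε) * x i) =
        (1 + ε) * x i * (c - 2 * p * q ^ 2) := by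
      have e10 : -B + q ^ 2 * B = -(p * p) := by
        have : -B + q ^ 2 * B = -((1 - q) * (B * (1 + q))) := by ring
        rw [this, hB1, ← hpq]
      have : (1 + ε) * ((c - B) * x i) - (p + p * q) * (1 + ε) * (2 * q * x i) +
        p * q * (2 * ((1 + ε) * x i)) + (p * p + q ^ 2 * B) * ((1 + ε) * x i) =
        (1 + ε) * x i * (c + (-B + q ^ 2 * B) + p * p - (p + p * q) * (2 * q) + 2 * (p * q)) := by
        ring
      rw [this, e10]
      ring
    linarith
  refine e6.trans ?_
  have hA0 : 0 ≤ A := by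
    rw [hAdef]
    apply tsum_nonneg
    intro k
    have h1 := S_nonneg hx0 (i + m + e m k)
    positivity
  have hcB : B ≤ c := by
    by_contra hneg
    push Not at hneg
    have : (c - B) * x i < 0 := mul_neg_of_neg_of_pos (by linarith) hxi
    linarith
  have hBlow : 2 * p * q * ε ≤ B := by
    have h3 : p ≤ 2 * B := by
      have h7 : B * (1 + q) ≤ B * 2 := mul_le_mul_of_nonneg_left (by linarith) hB0
      linarith
    have h4 : 2 * p * q * ε ≤ p * (1 / 2) := by
      have h5 : q * ε ≤ 1 * (1 / 4) := mul_le_mul hq1.le hε1 hε.le zero_le_one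
      have h6 : 2 * p * (q * ε) ≤ 2 * p * (1 * (1 / 4)) :=
        mul_le_mul_of_nonneg_left h5 (by positivity)
      linarith
    linarith
  calc (1 + ε) * x i * (c - 2 * p * q ^ 2) = x i * ((1 + ε) * (c - 2 * p * q ^ 2)) := by ring
    _ ≤ x i * (c - 2 * p * q * ε) := by
      apply mul_le_mul_of_nonneg_left _ hxi.le
      have : 0 ≤ 2 * p * q ^ 2 * ε := by positivity
      nlinarith
    _ ≤ g * (c - 2 * p * q * ε) := mul_le_mul_of_nonneg_right hgi0 (by linarith)
    _ = (c - 2 * p * q * ε) * g := by ring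

lemma bound_all (hm : 2 ≤ m) (hp0 : 0 < p) (hp1 : p < 1) (hx0 : ∀ n, 0 < x n)
    (hx : ∀ n, x n < x (n + m))
    (hε : 0 < ε) (hε1 : ε ≤ 1 / 4) (hεc : ε * (c + 2 * p * (1 - p)) ≤ 2 * p * (1 - p) ^ 2)
    {i : ℕ} (hi : m ≤ i) {g : ℝ} (hgi0 : x i ≤ g) (hgi : g < x (i + m))
    (hS : Summable (fun k : ℕ => p * (1 - p) ^ k * S x (i + m + e m k)))
    (hA : ∑' k : ℕ, p * (1 - p) ^ k * S x (i + m + e m k) ≤ (c - p / (2 - p)) * x i) :
    expectedTime p (zig x m ε) (i % m) g ≤
      ENNReal.ofReal ((c - 2 * p * (1 - p) * ε) * g) := by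
  have hg : 0 < g := (hx0 i).trans_le hgi0
  rcases le_or_gt (zz x m ε i) g with hz | hz
  · exact bound_B hm hp0 hp1 hx0 hx hε hgi0 hgi hz hS hA
  · have hWi := W_le (x := x) (m := m) (ε := ε) i
    have hW1 : W x m ε (i + 1) = W x m ε i + 2 * (zz x m ε i - x i) := W_succ i
    have hSm : S x i ≤ S x (i + m) := S_mono hx0 (by omega)
    have hεS : ε * S x i ≤ ε * S x (i + m) := mul_le_mul_of_nonneg_left hSm hε.le
    have hs0 := S_nonneg hx0 m
    have hb0 := beta_zero (x := x) (m := m) (ε := ε) i g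
    have hbm := beta_strictMono hm hx0 hx hε hg hgi
    rcases eq_or_lt_of_le hgi0 with heq | hlt
    · -- the point is the old turning point
      obtain ⟨j, rfl⟩ : ∃ j, i = j + m := ⟨i - m, by omega⟩
      have hWj : W x m ε (j + 1) ≤ W x m ε (j + m) := W_mono hx0 hx hε (by omega)
      have hSj : S x (j + m) < S x (j + m + m) := by
        have h1 := S_succ x (j + m)
        have h2 := S_mono hx0 (show j + m + 1 ≤ j + m + m by omega)
        have h3 := hx0 (j + m)
        linarith
      set τ : ℕ → ℝ := fun k => match k with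
        | 0 => S x (j + m) - S x m + W x m ε (j + 1) + g
        | 1 => S x (j + m + m) - S x m + W x m ε (j + m) + g
        | (k + 2) => beta x m ε (j + m) g k with hτdef
      have hτ : StrictMono τ := by
        apply strictMono_nat_of_lt_succ
        intro k
        rcases k with _ | _ | k
        · change S x (j + m) - S x m + W x m ε (j + 1) + g <
            S x (j + m + m) - S x m + W x m ε (j + m) + g
          linarith
        · change S x (j + m + m) - S x m + W x m ε (j + m) + g < beta x m ε (j + m) g 0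
          rw [hb0, hW1]
          linarith
        · exact hbm (Nat.lt_succ_self k)
      refine bound_A hm hp0 hp1 hx0 hx hε hε1 hεc hgi0 hz hS hA hτ ?_ ?_ ?_ ?_
      · intro k
        rcases k with _ | _ | k
        · have h1 := pass_c hx0 hx hε (k := j) (g := g) (by linarith [hx j]) heq.ge
          rw [Nat.add_mod_right]
          exact h1
        · exact pass_a hx0 hx hε hg hz.le
        · exact beta_pass hm hx0 hx hε hgi0 hgi k
      · change S x (j + m) - S x m + W x m ε (j + 1) + g ≤ _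
        linarith
      · change S x (j + m + m) - S x m + W x m ε (j + m) + g ≤ _
        linarith
      · intro k
        exact beta_le hx0 hε (j + m) g k
    · set τ : ℕ → ℝ := fun k => match k with
        | 0 => S x (i + m) - S x m + W x m ε i + g
        | 1 => S x (i + m) - S x m + W x m ε i + 2 * zz x m ε i - g
        | (k + 2) => beta x m ε i g k with hτdef
      have hτ : StrictMono τ := by
        apply strictMono_nat_of_lt_succ
        intro k
        rcases k with _ | _ | k
        · change S x (i + m) - S x m + W x m ε i + g <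
            S x (i + m) - S x m + W x m ε i + 2 * zz x m ε i - g
          linarith
        · change S x (i + m) - S x m + W x m ε i + 2 * zz x m ε i - g < beta x m ε i g 0
          rw [hb0, hW1]
          linarith
        · exact hbm (Nat.lt_succ_self k)
      refine bound_A hm hp0 hp1 hx0 hx hε hε1 hεc hgi0 hz hS hA hτ ?_ ?_ ?_ ?_
      · intro k
        rcases k with _ | _ | k
        · exact pass_a hx0 hx hε hg hz.le
        · exact pass_b hx0 hx hε hgi0 hz.le
        · exact beta_pass hm hx0 hx hε hgi0 hgi k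
      · change S x (i + m) - S x m + W x m ε i + g ≤ _
        linarith
      · change S x (i + m) - S x m + W x m ε i + 2 * zz x m ε i - g ≤ _
        linarith
      · intro k
        exact beta_le hx0 hε i g k

end Pool.Agent.H323.Rays
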