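import Pool.Agent.H323.Rays.Cyc

open MeasureTheory
open scoped ENNReal

namespace Pool.Agent.H323.Rays

open Pool.Agent.Helper569.Faulty (S S_zero S_succ S_nonneg S_mono)

/-- the additional turning point beyond `x k` -/
noncomputable def zz (x : ℕ → ℝ) (m : ℕ) (ε : ℝ) (k : ℕ) : ℝ := min ((1 + ε) * x k) (x (k + m))

/-- total additional time -/
noncomputable def W (x : ℕ → ℝ) (m : ℕ) (ε : ℝ) (k : ℕ) : ℝ :=
  2 * ∑ j ∈ Finset.range k, (zz x m ε j - x j)

/-- the modified path: excursion `k` goes out to `zz k`, back to `x k`, out to `x (k + m)` and back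
to the origin -/
noncomputable def zig (x : ℕ → ℝ) (m : ℕ) (ε : ℝ) : Path where
  ray n := (n / 4) % m
  dist n := if n % 4 = 0 then 0 else if n % 4 = 1 then zz x m ε (n / 4)
    else if n % 4 = 2 then x (n / 4) else x (n / 4 + m)

variable {x : ℕ → ℝ} {m : ℕ} {ε : ℝ}

lemma W_zero : W x m ε 0 = 0 := by simp [W]

lemma W_succ (k : ℕ) : W x m ε (k + 1) = W x m ε k + 2 * (zz x m ε k - x k) := by
  unfold W
  rw [Finset.sum_range_succ]
  ring

lemma zz_gt (hx0 : ∀ n, 0 < x n) (hx : ∀ n, x n < x (n + m)) (hε : 0 < ε) (k : ℕ) :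
    x k < zz x m ε k := by
  unfold zz
  apply lt_min _ (hx k)
  nlinarith [hx0 k]

lemma zz_le (k : ℕ) : zz x m ε k ≤ x (k + m) := min_le_right _ _

lemma zz_le' (k : ℕ) : zz x m ε k ≤ (1 + ε) * x k := min_le_left _ _

lemma W_mono (hx0 : ∀ n, 0 < x n) (hx : ∀ n, x n < x (n + m)) (hε : 0 < ε) :
    Monotone (W x m ε) := by
  apply monotone_nat_of_le_succ
  intro n
  rw [W_succ]
  linarith [zz_gt hx0 hx hε n]

lemma W_le (k : ℕ) : W x m ε k ≤ ε * S x k := by
  induction k with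
  | zero => rw [W_zero, S_zero, mul_zero]
  | succ n ih =>
    rw [W_succ, S_succ]
    have := zz_le' (x := x) (m := m) (ε := ε) n
    linarith

lemma ray0 (k : ℕ) : (zig x m ε).ray (4 * k) = k % m := by
  change (4 * k / 4) % m = k % m
  rw [show 4 * k / 4 = k by omega]

lemma ray1 (k : ℕ) : (zig x m ε).ray (4 * k + 1) = k % m := by
  change ((4 * k + 1) / 4) % m = k % m
  rw [show (4 * k + 1) / 4 = k by omega]

lemma ray2 (k : ℕ) : (zig x m ε).ray (4 * k + 2) = k % m := by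
  change ((4 * k + 2) / 4) % m = k % m
  rw [show (4 * k + 2) / 4 = k by omega]

lemma ray3 (k : ℕ) : (zig x m ε).ray (4 * k + 3) = k % m := by
  change ((4 * k + 3) / 4) % m = k % m
  rw [show (4 * k + 3) / 4 = k by omega]

lemma dist0 (k : ℕ) : (zig x m ε).dist (4 * k) = 0 := by
  have h : (4 * k) % 4 = 0 := by omega
  simp only [zig, if_pos h]

lemma dist1 (k : ℕ) : (zig x m ε).dist (4 * k + 1) = zz x m ε k := by
  have h : ¬ (4 * k + 1) % 4 = 0 := by omega
  have h' : (4 * k + 1) % 4 = 1 := by omega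
  have h'' : (4 * k + 1) / 4 = k := by omega
  simp only [zig, if_neg h, if_pos h', h'']

lemma dist2 (k : ℕ) : (zig x m ε).dist (4 * k + 2) = x k := by
  have h : ¬ (4 * k + 2) % 4 = 0 := by omega
  have h1 : ¬ (4 * k + 2) % 4 = 1 := by omega
  have h' : (4 * k + 2) % 4 = 2 := by omega
  have h'' : (4 * k + 2) / 4 = k := by omega
  simp only [zig, if_neg h, if_neg h1, if_pos h', h'']

lemma dist3 (k : ℕ) : (zig x m ε).dist (4 * k + 3) = x (k + m) := by
  have h : ¬ (4 * k + 3) % 4 = 0 := by omega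
  have h1 : ¬ (4 * k + 3) % 4 = 1 := by omega
  have h' : ¬ (4 * k + 3) % 4 = 2 := by omega
  have h'' : (4 * k + 3) / 4 = k := by omega
  simp only [zig, if_neg h, if_neg h1, if_neg h', h'']

lemma dist4 (k : ℕ) : (zig x m ε).dist (4 * k + 4) = 0 := by
  rw [show 4 * k + 4 = 4 * (k + 1) by ring]
  exact dist0 (k + 1)

lemma time1 (hx0 : ∀ n, 0 < x n) (hx : ∀ n, x n < x (n + m)) (hε : 0 < ε) {k : ℕ}
    (h : startTime (zig x m ε) (4 * k) = S x (k + m) - S x m + W x m ε k) :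
    startTime (zig x m ε) (4 * k + 1) = S x (k + m) - S x m + W x m ε k + zz x m ε k := by
  rw [startTime_succ, h, dist1, dist0, sub_zero, abs_of_pos]
  linarith [zz_gt hx0 hx hε k, hx0 k]

lemma time2 (hx0 : ∀ n, 0 < x n) (hx : ∀ n, x n < x (n + m)) (hε : 0 < ε) {k : ℕ}
    (h : startTime (zig x m ε) (4 * k) = S x (k + m) - S x m + W x m ε k) :
    startTime (zig x m ε) (4 * k + 2) =
      S x (k + m) - S x m + W x m ε k + 2 * zz x m ε k - x k := by
  rw [show 4 * k + 2 = 4 * k + 1 + 1 by ring, startTime_succ, time1 hx0 hx hε h,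
    show 4 * k + 1 + 1 = 4 * k + 2 by ring, dist1, dist2, abs_of_neg]
  · ring
  · linarith [zz_gt hx0 hx hε k]

lemma time3 (hx0 : ∀ n, 0 < x n) (hx : ∀ n, x n < x (n + m)) (hε : 0 < ε) {k : ℕ}
    (h : startTime (zig x m ε) (4 * k) = S x (k + m) - S x m + W x m ε k) :
    startTime (zig x m ε) (4 * k + 3) =
      S x (k + m) - S x m + W x m ε (k + 1) + x (k + m) := by
  rw [show 4 * k + 3 = 4 * k + 2 + 1 by ring, startTime_succ, time2 hx0 hx hε h,
    show 4 * k + 2 + 1 = 4 * k + 3 by ring, dist2, dist3, abs_of_pos, W_succ]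
  · ring
  · linarith [hx k]

lemma time0 (hx0 : ∀ n, 0 < x n) (hx : ∀ n, x n < x (n + m)) (hε : 0 < ε) (k : ℕ) :
    startTime (zig x m ε) (4 * k) = S x (k + m) - S x m + W x m ε k := by
  induction k with
  | zero => rw [mul_zero, startTime_zero, zero_add, W_zero]; ring
  | succ n ih =>
    rw [show 4 * (n + 1) = 4 * n + 3 + 1 by ring, startTime_succ, time3 hx0 hx hε ih,
      show 4 * n + 3 + 1 = 4 * n + 4 by ring, dist4, dist3, zero_sub, abs_neg,
      abs_of_pos (hx0 _), show n + 1 + m = n + m + 1 by ring, S_succ]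
    ring

lemma pass_a (hx0 : ∀ n, 0 < x n) (hx : ∀ n, x n < x (n + m)) (hε : 0 < ε) {k : ℕ} {g : ℝ}
    (hg : 0 < g) (hgz : g ≤ zz x m ε k) :
    IsAt (zig x m ε) (S x (k + m) - S x m + W x m ε k + g) (k % m) g := by
  have h := isAt_out (zig x m ε) (4 * k) (x := g) (by rw [dist0]; exact hg.le)
    (by rw [dist1]; exact hgz)
  rwa [time0 hx0 hx hε, dist0, sub_zero, ray0] at h

lemma pass_b (hx0 : ∀ n, 0 < x n) (hx : ∀ n, x n < x (n + m)) (hε : 0 < ε) {k : ℕ} {g : ℝ}
    (hg : x k ≤ g) (hgz : g ≤ zz x m ε k) :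
    IsAt (zig x m ε) (S x (k + m) - S x m + W x m ε k + 2 * zz x m ε k - g) (k % m) g := by
  have h := isAt_in (zig x m ε) (4 * k + 1) (x := g)
    (by rw [show 4 * k + 1 + 1 = 4 * k + 2 by ring, dist2]; exact hg)
    (by rw [dist1]; exact hgz)
  rw [time1 hx0 hx hε (time0 hx0 hx hε k), dist1, ray1] at h
  convert h using 1
  ring

lemma pass_c (hx0 : ∀ n, 0 < x n) (hx : ∀ n, x n < x (n + m)) (hε : 0 < ε) {k : ℕ} {g : ℝ}
    (hg : x k ≤ g) (hgz : g ≤ x (k + m)) :
    IsAt (zig x m ε) (S x (k + m) - S x m + W x m ε (k + 1) + g) (k % m) g := by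
  have h := isAt_out (zig x m ε) (4 * k + 2) (x := g) (by rw [dist2]; exact hg)
    (by rw [show 4 * k + 2 + 1 = 4 * k + 3 by ring, dist3]; exact hgz)
  rw [time2 hx0 hx hε (time0 hx0 hx hε k), dist2, ray2] at h
  convert h using 1
  rw [W_succ]
  ring

lemma pass_d (hx0 : ∀ n, 0 < x n) (hx : ∀ n, x n < x (n + m)) (hε : 0 < ε) {k : ℕ} {g : ℝ}
    (hg : 0 < g) (hgz : g ≤ x (k + m)) :
    IsAt (zig x m ε) (S x (k + m + 1) - S x m + W x m ε (k + 1) - g) (k % m) g := by
  have h := isAt_in (zig x m ε) (4 * k + 3) (x := g)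
    (by rw [show 4 * k + 3 + 1 = 4 * k + 4 by ring, dist4]; exact hg.le)
    (by rw [dist3]; exact hgz)
  rw [time3 hx0 hx hε (time0 hx0 hx hε k), dist3, ray3] at h
  convert h using 1
  rw [S_succ]
  ring

/-- the basic list of passes -/
noncomputable def beta (x : ℕ → ℝ) (m : ℕ) (ε : ℝ) (i : ℕ) (g : ℝ) (k : ℕ) : ℝ :=
  S x (i + m + e m k) - S x m + W x m ε (i + max (e m k) 1) + (-1) ^ k * g

lemma beta_strictMono (hm : 2 ≤ m) (hx0 : ∀ n, 0 < x n) (hx : ∀ n, x n < x (n + m))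
    (hε : 0 < ε) {i : ℕ} {g : ℝ} (hg : 0 < g) (hgi : g < x (i + m)) :
    StrictMono (beta x m ε i g) := by
  intro k l hkl
  have h1 := tau_strictMono hm hx0 hx hg hgi hkl
  have h0 := e_strictMono hm hkl
  unfold tau at h1
  unfold beta
  have h2 : W x m ε (i + max (e m k) 1) ≤ W x m ε (i + max (e m l) 1) :=
    W_mono hx0 hx hε (by omega)
  linarith

lemma beta_zero (i : ℕ) (g : ℝ) :
    beta x m ε i g 0 = S x (i + m) - S x m + W x m ε (i + 1) + g := by
  unfold beta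
  rw [e_zero, add_zero, show max 0 1 = 1 by rfl, pow_zero, one_mul]

lemma beta_pass (hm : 2 ≤ m) (hx0 : ∀ n, 0 < x n) (hx : ∀ n, x n < x (n + m)) (hε : 0 < ε)
    {i : ℕ} {g : ℝ} (hgi0 : x i ≤ g) (hgi : g < x (i + m)) (k : ℕ) :
    IsAt (zig x m ε) (beta x m ε i g k) (i % m) g := by
  have hg : 0 < g := (hx0 i).trans_le hgi0
  obtain ⟨l, rfl | rfl⟩ : ∃ l, k = 2 * l ∨ k = 2 * l + 1 := ⟨k / 2, by omega⟩
  · rcases Nat.eq_zero_or_pos l with rfl | hl
    · rw [mul_zero, beta_zero]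
      exact pass_c hx0 hx hε hgi0 hgi.le
    · have hml : m ≤ m * l := Nat.le_mul_of_pos_right m hl
      have hmod : (i + m * l) % m = i % m := Nat.add_mul_mod_self_left _ _ _
      unfold beta
      rw [e_even, max_eq_left (by omega : 1 ≤ m * l), pow_mul, ← hmod,
        show i + m + m * l = i + m * l + m by ring]
      have h1 : x (i + m) ≤ x (i + m * l) :=
        x_mono_mod hx (by omega) (by rw [hmod, Nat.add_mod_right])
      have h2 := pass_a hx0 hx hε (k := i + m * l) hg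
        (by linarith [zz_gt hx0 hx hε (i + m * l)])
      convert h2 using 1
      simp
  · have hmod : (i + m * l) % m = i % m := Nat.add_mul_mod_self_left _ _ _
    unfold beta
    rw [e_odd, max_eq_left (by omega : 1 ≤ m * l + 1), pow_succ, pow_mul, ← hmod,
      show i + m + (m * l + 1) = i + m * l + m + 1 by ring,
      show i + (m * l + 1) = i + m * l + 1 by ring]
    have h1 : x (i + m) ≤ x (i + m * l + m) :=
      x_mono_mod hx (by omega) (by rw [Nat.add_mod_right, Nat.add_mod_right, hmod])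
    have h2 := pass_d hx0 hx hε (k := i + m * l) hg (hgi.le.trans h1)
    convert h2 using 1
    simp
    ring

lemma beta_le (hx0 : ∀ n, 0 < x n) (hε : 0 < ε) (i : ℕ) (g : ℝ) (k : ℕ) :
    beta x m ε i g k ≤ S x (i + m + e m k) + ε * S x (i + 1 + e m k) + (-1) ^ k * g := by
  unfold beta
  have h1 := W_le (x := x) (m := m) (ε := ε) (i + max (e m k) 1)
  have h2 : S x (i + max (e m k) 1) ≤ S x (i + 1 + e m k) := S_mono hx0 (by omega)
  have h3 := S_nonneg hx0 m
  nlinarith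

lemma isTrajectory_zig (hm : 2 ≤ m) (hx0 : ∀ n, 0 < x n) (hx : ∀ n, x n < x (n + m))
    (hε : 0 < ε) : IsTrajectory m (zig x m ε) := by
  refine ⟨fun n => Nat.mod_lt _ (by omega), dist0 0, ?_, ?_, ?_, ?_⟩
  · intro n
    obtain ⟨k, rfl | rfl | rfl | rfl⟩ : ∃ k, n = 4 * k ∨ n = 4 * k + 1 ∨ n = 4 * k + 2 ∨
        n = 4 * k + 3 := ⟨n / 4, by omega⟩
    · rw [dist0]
    · rw [dist1]; linarith [zz_gt hx0 hx hε k, hx0 k]
    · rw [dist2]; exact (hx0 k).le
    · rw [dist3]; exact (hx0 _).le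
  · intro n
    obtain ⟨k, rfl | rfl | rfl | rfl⟩ : ∃ k, n = 4 * k ∨ n = 4 * k + 1 ∨ n = 4 * k + 2 ∨
        n = 4 * k + 3 := ⟨n / 4, by omega⟩
    · rw [dist0, dist1]
      exact ((hx0 k).trans (zz_gt hx0 hx hε k)).ne'
    · rw [show 4 * k + 1 + 1 = 4 * k + 2 by ring, dist1, dist2]
      exact (zz_gt hx0 hx hε k).ne
    · rw [show 4 * k + 2 + 1 = 4 * k + 3 by ring, dist2, dist3]
      exact (hx k).ne'
    · rw [show 4 * k + 3 + 1 = 4 * k + 4 by ring, dist3, dist4]
      exact (hx0 _).ne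
  · intro n
    obtain ⟨k, rfl | rfl | rfl | rfl⟩ : ∃ k, n = 4 * k ∨ n = 4 * k + 1 ∨ n = 4 * k + 2 ∨
        n = 4 * k + 3 := ⟨n / 4, by omega⟩
    · rw [ray0, ray1]; intro h; exact absurd rfl h
    · rw [show 4 * k + 1 + 1 = 4 * k + 2 by ring, ray1, ray2]; intro h; exact absurd rfl h
    · rw [show 4 * k + 2 + 1 = 4 * k + 3 by ring, ray2, ray3]; intro h; exact absurd rfl h
    · intro _
      rw [show 4 * k + 3 + 1 = 4 * k + 4 by ring, dist4]
  · intro hsum
    have h1 := hsum.tendsto_atTop_zero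
    have h2 : Filter.Tendsto (fun l : ℕ => 4 * (m * l)) Filter.atTop Filter.atTop := by
      apply Filter.tendsto_atTop_mono (f := fun l : ℕ => l)
      · intro l
        have : 1 * l ≤ m * l := Nat.mul_le_mul_right l (by omega)
        omega
      · exact Filter.tendsto_id
    have h3 := h1.comp h2
    have h4 : ∀ l : ℕ, x 0 ≤ ((fun i => |(zig x m ε).dist (i + 1) - (zig x m ε).dist i|) ∘
        (fun l : ℕ => 4 * (m * l))) l := by
      intro l
      simp only [Function.comp]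
      rw [dist1, dist0, sub_zero]
      have a1 : x 0 ≤ x (m * l) := by
        have := x_mono hx 0 l
        rwa [zero_add] at this
      exact (a1.trans (zz_gt hx0 hx hε (m * l)).le).trans (le_abs_self _)
    have h5 := ge_of_tendsto' h3 h4
    linarith [hx0 0]

end Pool.Agent.H323.Rays
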